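import Mathlib

set_option autoImplicit false

/-!
# Project GM: truncated Moebius function in short windows, statements of the jobs
-/

namespace Pool.Agent.Y862.GM

open Finset

/-- the primes up to `y` -/
def pr (y : ℕ) : Finset ℕ := (range (y + 1)).filter Nat.Prime

/-- the factor of the Moebius function at the prime `p` -/
noncomputable def muP (p n : ℕ) : ℝ := if p ^ 2 ∣ n then 0 else if p ∣ n then -1 else 1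

/-- the Moebius function truncated at `y`: the Moebius function of the `y`-smooth part of `n` -/
noncomputable def mu (y n : ℕ) : ℝ := ∏ p ∈ pr y, muP p n

/-- the local factor of the correlation at the shifts `h` -/
noncomputable def loc {K : ℕ} (h : Fin K → ℕ) (p n : ℕ) : ℝ := ∏ i, muP p (n + h i)

/-- the values which `h` takes an odd number of times -/
def odd {K : ℕ} (h : Fin K → ℕ) : Finset ℕ :=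
  (univ.image h).filter (fun v => Odd ((univ.filter (fun i => h i = v)).card))

/-- the sign of `h` in the sign pattern coded by the set `U` -/
def sg (U : Finset ℕ) (h : ℕ) : ℝ := if h ∈ U then 1 else -1

/-- Mertens -/
def S_MERT : Prop := ∃ C : ℝ, ∀ N : ℕ, 3 ≤ N →
  |∑ p ∈ pr N, (1 : ℝ) / p - Real.log (Real.log N)| ≤ C

/-- the truncated product inequality -/
def S_TRUNC : Prop := ∀ (P : Finset ℕ) (a : ℕ → ℝ), (∀ p ∈ P, |1 + a p| ≤ 1) → ∀ s : ℕ,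
  |∏ p ∈ P, (1 + a p) - ∑ j ∈ range (s + 1), ∑ S ∈ powersetCard j P, ∏ p ∈ S, a p| ≤
    ∑ S ∈ powersetCard (s + 1) P, ∏ p ∈ S, |a p|

/-- equidistribution of products of periodic functions -/
def S_EQUI : Prop := ∀ (S : Finset ℕ), (∀ p ∈ S, p.Prime) → ∀ a : ℕ → ℕ → ℝ,
  (∀ p ∈ S, ∀ n, a p (n + p ^ 2) = a p n) → (∀ p ∈ S, ∀ n, |a p n| ≤ 2) → ∀ Z Y : ℕ,
  |∑ n ∈ Ioc Z (Z + Y), ∏ p ∈ S, a p n - Y * ∏ p ∈ S, ((∑ n ∈ range (p ^ 2), a p n) / p ^ 2)| ≤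
    2 * 2 ^ S.card * ∏ p ∈ S, (p : ℝ) ^ 2

/-- a fundamental lemma of Brun type for multiplicative weights -/
def S_BRUN : Prop := ∀ (κ : ℝ) (B : ℕ), ∃ A : ℕ, ∀ y : ℕ, A ≤ y → ∀ Z Y : ℕ,
  (y : ℝ) ^ (A * Real.log (Real.log y)) ≤ Y → ∀ a : ℕ → ℕ → ℝ,
  (∀ p ∈ pr y, ∀ n, a p (n + p ^ 2) = a p n) → (∀ p ∈ pr y, ∀ n, |1 + a p n| ≤ 1) →
  (∀ p ∈ pr y, ∑ n ∈ range (p ^ 2), |a p n| ≤ κ * p) →
  |(∑ n ∈ Ioc Z (Z + Y), ∏ p ∈ pr y, (1 + a p n)) / Y -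
    ∏ p ∈ pr y, (1 + (∑ n ∈ range (p ^ 2), a p n) / p ^ 2)| ≤ 1 / Real.log y ^ B

/-- the local factors -/
def S_LOC : Prop := ∀ (K : ℕ) (h : Fin K → ℕ) (p : ℕ), p.Prime →
  (∀ n, loc h p (n + p ^ 2) = loc h p n) ∧ (∀ n, |loc h p n| ≤ 1) ∧
  (∑ n ∈ range (p ^ 2), |loc h p n - 1| ≤ 2 * K * p) ∧
  ((∀ i, h i < p) → ∑ n ∈ range (p ^ 2), loc h p n =
    (p : ℝ) ^ 2 - 2 * (odd h).card * p + 2 * (odd h).card - (univ.image h).card)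

/-- the correlations -/
def S_CORR : Prop := ∀ K : ℕ, ∃ (A : ℕ) (C : ℝ), ∀ y L : ℕ, A ≤ y → 2 ≤ L → L ≤ y → ∀ Z Y : ℕ,
  (y : ℝ) ^ (A * Real.log (Real.log y)) ≤ Y → ∀ h : Fin K → ℕ, (∀ i, h i ≤ L) →
  |(∑ n ∈ Ioc Z (Z + Y), ∏ i, mu y (n + h i)) / Y| ≤
    C * (Real.log L / Real.log y) ^ (2 * (odd h).card)

/-- the number of squarefree numbers in windows -/
def S_SQ : Prop := ∀ ε : ℝ, 0 < ε → ∃ A : ℕ, ∀ y b Z Y : ℕ, A ≤ y → A ≤ b → A * y ≤ Y →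
  ∑ x ∈ Ioc Z (Z + Y), |(∑ n ∈ Ioc x (x + b), mu y n ^ 2) / b - 6 / Real.pi ^ 2| ≤ ε * Y

/-- comparison of the moments with random signs -/
def S_SIGN : Prop := ∀ (Om : Finset ℕ) (L K : ℕ) (f : ℕ → ℕ → ℝ) (v : ℕ → ℝ) (C δ : ℝ),
  (∀ x h, f x h ^ 3 = f x h) → (∀ h, |v h| ≤ C) → 0 ≤ δ →
  (∀ g : Fin K → ℕ, (∀ i, g i ∈ Ioc 0 L) → (odd g).Nonempty →
    |∑ x ∈ Om, ∏ i, f x (g i)| ≤ δ) →
  |∑ x ∈ Om, (∑ h ∈ Ioc 0 L, v h * f x h) ^ K -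
    ∑ x ∈ Om, (∑ U ∈ (Ioc 0 L).powerset, (∑ h ∈ Ioc 0 L, v h * sg U h * f x h ^ 2) ^ K) / 2 ^ L| ≤
    (C * L) ^ K * δ

/-- comparison of the characteristic functions with random signs -/
def S_CF : Prop := ∀ (Om : Finset ℕ) (L K : ℕ) (f : ℕ → ℕ → ℝ) (v : ℕ → ℝ) (B δ : ℝ),
  Even K → 0 ≤ δ → (∀ x h, f x h ^ 3 = f x h) → ∑ h ∈ Ioc 0 L, v h ^ 2 ≤ B →
  (∀ j ≤ K, |∑ x ∈ Om, (∑ h ∈ Ioc 0 L, v h * f x h) ^ j -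
    ∑ x ∈ Om, (∑ U ∈ (Ioc 0 L).powerset, (∑ h ∈ Ioc 0 L, v h * sg U h * f x h ^ 2) ^ j) / 2 ^ L| ≤
    δ * Om.card) →
  ‖∑ x ∈ Om, Complex.exp (Complex.I * ((∑ h ∈ Ioc 0 L, v h * f x h : ℝ) : ℂ)) -
    ((∑ x ∈ Om, ∏ h ∈ Ioc 0 L, Real.cos (v h * f x h ^ 2) : ℝ) : ℂ)‖ ≤
    (4 * δ + 2 * Real.exp (2 * B) / 2 ^ K) * Om.card

/-- powers of cosines -/
def S_COS : Prop := ∀ (k : ℕ) (T ε : ℝ), 0 < ε → ∃ (b0 : ℕ) (η : ℝ), 0 < η ∧ ∀ b : ℕ, b0 ≤ b →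
  ∀ w : Fin k → ℝ, (∀ i, |w i| ≤ T) → ∀ q : Fin k → ℕ,
  (∀ i, |(q i : ℝ) / b - 6 / Real.pi ^ 2| ≤ η) →
  |∏ i, Real.cos (w i / √(6 * b / Real.pi ^ 2)) ^ q i - Real.exp (-(∑ i, w i ^ 2) / 2)| ≤ ε

/-- from characteristic functions to distribution functions -/
def S_LEVY : Prop := ∀ (k : ℕ) (t : Fin k → ℝ) (ε : ℝ), 0 < ε → ∃ T δ : ℝ, 0 < δ ∧
  ∀ Om : Finset ℕ, Om.Nonempty → ∀ S : ℕ → Fin k → ℝ,
  (∀ w : Fin k → ℝ, (∀ i, |w i| ≤ T) →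
    ‖(∑ x ∈ Om, Complex.exp (Complex.I * ((∑ i, w i * S x i : ℝ) : ℂ))) / Om.card -
      ((Real.exp (-(∑ i, w i ^ 2) / 2) : ℝ) : ℂ)‖ ≤ δ) →
  |((Om.filter (fun x => ∀ i, S x i ≤ t i)).card : ℝ) / Om.card -
    ∏ i, (ProbabilityTheory.gaussianReal 0 1).real (Set.Iic (t i))| ≤ ε

end Pool.Agent.Y862.GM
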