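import Pool.Agent.Y862.GM.Asm
import Pool.Agent.Y210.GM.Trunc
import Pool.Agent.Y672.GM.Equi
import Pool.Agent.Y259.GM.Loc
import Pool.Agent.Y71.GM.Corr
import Pool.Agent.Y968.GM.Sq
import Pool.Agent.Y340.GM.Sign
import Pool.Agent.Y845.GM.CF
import Pool.Agent.Y954.GM.Cos
import Pool.Agent.Y756.GM.Levy
import Pool.Agent.Y756.GM.Brun
import Pool.Agent.Helper256.KM.Mertens

set_option autoImplicit false

/-!
# Project GM: the joint Gaussian law, no hypotheses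
-/

namespace Pool.Agent.Y862.GM

open Finset

theorem pr_eq (N : ℕ) : pr N = (Finset.Icc 1 N).filter Nat.Prime := by
  unfold pr
  ext p
  rw [mem_filter, mem_filter, mem_range, mem_Icc]
  constructor
  · rintro ⟨h1, h2⟩
    exact ⟨⟨h2.one_lt.le, by omega⟩, h2⟩
  · rintro ⟨h1, h2⟩
    exact ⟨by omega, h2⟩

theorem mert : S_MERT := by
  obtain ⟨C, hC⟩ := Pool.Agent.Helper256.KM.mertens_inv
  exact ⟨C, fun N hN => by rw [pr_eq]; exact hC N hN⟩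

theorem brun : S_BRUN := Pool.Agent.Y756.GM.t_BRUN mert Pool.Agent.Y210.GM.t_TRUNC Pool.Agent.Y672.GM.t_EQUI

theorem corr : S_CORR := Pool.Agent.Y71.GM.t_CORR mert brun Pool.Agent.Y259.GM.t_LOC

open Classical in
/-- **the joint Gaussian law** -/
theorem gauss (k : ℕ) (t : Fin k → ℝ) (ε : ℝ) (hε : 0 < ε) :
    ∃ A : ℕ, ∀ y b Z Y : ℕ, A ≤ b → (b : ℝ) ^ A ≤ Real.log y →
      (y : ℝ) ^ (A * Real.log (Real.log y)) ≤ Y →
      |(((Ioc Z (Z + Y)).filter (fun x => ∀ i : Fin k, ∑ n ∈ Ioc (x + i * b) (x + i * b + b), mu y n ≤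
        t i * √(6 * b / Real.pi ^ 2))).card : ℝ) / Y -
        ∏ i, (ProbabilityTheory.gaussianReal 0 1).real (Set.Iic (t i))| ≤ ε :=
  main corr (Pool.Agent.Y968.GM.t_SQ Pool.Agent.Y672.GM.t_EQUI) Pool.Agent.Y340.GM.t_SIGN
    Pool.Agent.Y845.GM.t_CF Pool.Agent.Y954.GM.t_COS Pool.Agent.Y756.GM.t_LEVY k t ε hε

end Pool.Agent.Y862.GM
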