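import Pool.Agent.Y862.GM.Stm

set_option autoImplicit false

/-!
# Project GM: the assembly
-/

namespace Pool.Agent.Y862.GM

open Finset

lemma sum_blocks_range (k b : ℕ) (F : ℕ → ℝ) :
    ∑ h ∈ Ioc 0 (k * b), F h = ∑ i ∈ range k, ∑ u ∈ Ioc (i * b) (i * b + b), F u := by
  induction k with
  | zero => simp
  | succ k ih =>
    rw [Finset.sum_range_succ, ← ih, add_mul, one_mul]
    rw [← Finset.sum_Ioc_consecutive F (Nat.zero_le (k * b)) (Nat.le_add_right (k * b) b)]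

lemma sum_blocks (k b : ℕ) (F : ℕ → ℝ) :
    ∑ h ∈ Ioc 0 (k * b), F h = ∑ i : Fin k, ∑ u ∈ Ioc (i * b) (i * b + b), F u := by
  rw [sum_blocks_range, Finset.sum_range]

lemma prod_blocks (k b : ℕ) (F : ℕ → ℝ) :
    ∏ h ∈ Ioc 0 (k * b), F h = ∏ i : Fin k, ∏ u ∈ Ioc (i * b) (i * b + b), F u := by
  have h : ∏ h ∈ Ioc 0 (k * b), F h = ∏ i ∈ range k, ∏ u ∈ Ioc (i * b) (i * b + b), F u := by
    induction k with
    | zero => simp
    | succ k ih =>
      rw [Finset.prod_range_succ, ← ih, add_mul, one_mul]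
      rw [← Finset.prod_Ioc_consecutive F (Nat.zero_le (k * b)) (Nat.le_add_right (k * b) b)]
  rw [h, Finset.prod_range]

lemma muP_cube (p n : ℕ) : muP p n ^ 3 = muP p n := by
  unfold muP
  split_ifs <;> norm_num

lemma mu_cube (y n : ℕ) : mu y n ^ 3 = mu y n := by
  unfold mu
  rw [← Finset.prod_pow]
  exact Finset.prod_congr rfl fun p _ => muP_cube p n

lemma mu_vals (y n : ℕ) : mu y n = 0 ∨ mu y n ^ 2 = 1 := by
  have h := mu_cube y n
  have h2 : mu y n * (mu y n ^ 2 - 1) = 0 := by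
    have : mu y n ^ 3 = mu y n * mu y n ^ 2 := by ring
    rw [this] at h
    linarith
  rcases mul_eq_zero.1 h2 with h3 | h3
  · exact Or.inl h3
  · exact Or.inr (by linarith)

/-- shift a window -/
lemma sum_shift (x a b : ℕ) (F : ℕ → ℝ) :
    ∑ u ∈ Ioc a (a + b), F (x + u) = ∑ n ∈ Ioc (x + a) (x + a + b), F n := by
  have : Ioc (x + a) (x + a + b) = (Ioc a (a + b)).image (fun u => x + u) := by
    ext n
    rw [mem_image, mem_Ioc]
    constructor
    · intro h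
      refine ⟨n - x, ?_, by omega⟩
      rw [mem_Ioc]
      omega
    · rintro ⟨u, hu, rfl⟩
      rw [mem_Ioc] at hu
      omega
  rw [this, Finset.sum_image]
  intro u _ v _ huv
  simp only at huv
  omega

open Classical in
/-- the number of squarefree numbers in a window as a natural number -/
noncomputable def qn (y x a b : ℕ) : ℕ := ((Ioc a (a + b)).filter (fun u => mu y (x + u) ≠ 0)).card

lemma qn_eq (y x a b : ℕ) : (qn y x a b : ℝ) = ∑ n ∈ Ioc (x + a) (x + a + b), mu y n ^ 2 := by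
  classical
  rw [← sum_shift x a b (fun n => mu y n ^ 2)]
  unfold qn
  rw [Finset.card_filter]
  push_cast
  apply Finset.sum_congr rfl
  intro u _
  rcases mu_vals y (x + u) with h | h
  · rw [h]; simp
  · rw [h]
    have : mu y (x + u) ≠ 0 := by
      intro h0
      rw [h0] at h
      norm_num at h
    simp [this]

lemma prod_cos (y x a b : ℕ) (c : ℝ) :
    ∏ u ∈ Ioc a (a + b), Real.cos (c * mu y (x + u) ^ 2) = Real.cos c ^ qn y x a b := by
  classical
  unfold qn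
  rw [← Finset.prod_const, Finset.prod_filter]
  apply Finset.prod_congr rfl
  intro u _
  rcases mu_vals y (x + u) with h | h
  · rw [h]; simp
  · rw [h]
    have : mu y (x + u) ≠ 0 := by
      intro h0
      rw [h0] at h
      norm_num at h
    simp [this]

lemma mem_block_div (i b u : ℕ) (hu : u ∈ Ioc (i * b) (i * b + b)) : (u - 1) / b = i := by
  rw [mem_Ioc] at hu
  have hb : 0 < b := by omega
  apply Nat.div_eq_of_lt_le
  · omega
  · have : (i + 1) * b = i * b + b := by ring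
    omega

/-- the weights -/
noncomputable def wt {k : ℕ} (w : Fin k → ℝ) (b : ℕ) (σ : ℝ) (h : ℕ) : ℝ :=
  if hh : (h - 1) / b < k then w ⟨(h - 1) / b, hh⟩ / σ else 0

lemma wt_block {k : ℕ} (w : Fin k → ℝ) (b : ℕ) (σ : ℝ) (i : Fin k) (u : ℕ)
    (hu : u ∈ Ioc ((i : ℕ) * b) (i * b + b)) : wt w b σ u = w i / σ := by
  unfold wt
  have h := mem_block_div i b u hu
  rw [dif_pos (by rw [h]; exact i.2)]
  congr 2
  exact Fin.ext h

lemma wt_bound {k : ℕ} (w : Fin k → ℝ) (b : ℕ) (σ T : ℝ) (hσ : 0 < σ) (hT : 0 ≤ T)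
    (hw : ∀ i, |w i| ≤ T) (h : ℕ) : |wt w b σ h| ≤ T / σ := by
  unfold wt
  split_ifs with hh
  · rw [abs_div, abs_of_pos hσ]
    exact div_le_div_of_nonneg_right (hw _) hσ.le
  · simp
    positivity

/-- the squares of the scale -/
lemma sigma_facts (b : ℕ) (hb : 1 ≤ b) : 0 < √(6 * b / Real.pi ^ 2) ∧ 1 / 2 ≤ √(6 * b / Real.pi ^ 2) ∧
    √(6 * b / Real.pi ^ 2) ^ 2 = 6 * b / Real.pi ^ 2 := by
  have hb' : (1 : ℝ) ≤ b := by exact_mod_cast hb
  have hpi : Real.pi < 3.15 := Real.pi_lt_d2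
  have hpi0 : 0 < Real.pi := Real.pi_pos
  have h1 : (1 / 4 : ℝ) ≤ 6 * b / Real.pi ^ 2 := by
    rw [div_le_div_iff₀ (by norm_num) (by positivity)]
    nlinarith
  have h2 : 1 / 2 ≤ √(6 * b / Real.pi ^ 2) := by
    apply Real.le_sqrt_of_sq_le
    norm_num at h1 ⊢
    linarith
  exact ⟨by linarith, h2, Real.sq_sqrt (by linarith)⟩

/-- **the characteristic functions** -/
theorem char_close (hCORR : S_CORR) (hSQ : S_SQ) (hSIGN : S_SIGN) (hCF : S_CF) (hCOS : S_COS)
    (k : ℕ) (hk : 1 ≤ k) (T δ : ℝ) (hT : 1 ≤ T) (hδ : 0 < δ) :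
    ∃ A : ℕ, ∀ y b Z Y : ℕ, A ≤ b → (b : ℝ) ^ A ≤ Real.log y →
      (y : ℝ) ^ (A * Real.log (Real.log y)) ≤ Y → 0 < Y → ∀ w : Fin k → ℝ, (∀ i, |w i| ≤ T) →
      ‖(∑ x ∈ Ioc Z (Z + Y), Complex.exp (Complex.I * ((∑ i : Fin k, w i *
        ((∑ n ∈ Ioc (x + i * b) (x + i * b + b), mu y n) / √(6 * b / Real.pi ^ 2)) : ℝ) : ℂ))) /
        ((Ioc Z (Z + Y)).card : ℂ) - ((Real.exp (-(∑ i, w i ^ 2) / 2) : ℝ) : ℂ)‖ ≤ δ := by
  have hT0 : 0 < T := by linarith
  obtain ⟨B, hB⟩ : ∃ B : ℝ, B = k * T ^ 2 * (Real.pi ^ 2 / 6) := ⟨_, rfl⟩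
  obtain ⟨K, hKeven, hK⟩ : ∃ K : ℕ, Even K ∧ 2 * Real.exp (2 * B) / 2 ^ K ≤ δ / 4 := by
    obtain ⟨N, hN⟩ := exists_nat_ge (2 * Real.exp (2 * B) / (δ / 4))
    refine ⟨2 * N, even_two_mul N, ?_⟩
    have h1 : (N : ℝ) ≤ 2 ^ (2 * N) := by
      have : N ≤ 2 ^ (2 * N) := by
        calc N ≤ 2 ^ N := Nat.lt_two_pow_self.le
          _ ≤ 2 ^ (2 * N) := Nat.pow_le_pow_right (by norm_num) (by omega)
      exact_mod_cast this
    rw [div_le_iff₀ (by positivity)] at hN ⊢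
    calc 2 * Real.exp (2 * B) ≤ N * (δ / 4) := hN
      _ ≤ 2 ^ (2 * N) * (δ / 4) := by gcongr
      _ = δ / 4 * 2 ^ (2 * N) := by ring
  obtain ⟨b0, η, hη, hcos⟩ := hCOS k T (δ / 8) (by positivity)
  obtain ⟨A1, hA1⟩ := hSQ (η * δ / (16 * k)) (by positivity)
  choose A2 C2 hcorr using hCORR
  obtain ⟨A3, hA3⟩ : ∃ A3 : ℕ, A3 = ∑ j ∈ range (K + 1), A2 j := ⟨_, rfl⟩
  obtain ⟨C3, hC3⟩ : ∃ C3 : ℝ, C3 = ∑ j ∈ range (K + 1), |C2 j| := ⟨_, rfl⟩
  have hC30 : 0 ≤ C3 := by rw [hC3]; exact Finset.sum_nonneg fun _ _ => abs_nonneg _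
  obtain ⟨D, hD⟩ : ∃ D : ℝ, D = (2 * T * k) ^ K * (C3 + 1) := ⟨_, rfl⟩
  have hk' : (1 : ℝ) ≤ k := by exact_mod_cast hk
  have hTk : 1 ≤ 2 * T * k := by nlinarith
  have hD0 : 0 < D := by rw [hD]; positivity
  obtain ⟨N1, hN1⟩ := exists_nat_ge (D / (δ / 32))
  refine ⟨b0 + A1 + A3 + N1 + K + k + 10, ?_⟩
  intro y b Z Y hb hby hyY hY w hw
  obtain ⟨A, hA⟩ : ∃ A : ℕ, A = b0 + A1 + A3 + N1 + K + k + 10 := ⟨_, rfl⟩
  rw [← hA] at hb hby hyY
  have hb1 : (10 : ℝ) ≤ b := by exact_mod_cast (by omega : 10 ≤ b)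
  have hb1' : (1 : ℝ) ≤ b := by linarith
  -- y is large
  have hbA : ∀ m : ℕ, m ≤ A → (b : ℝ) ^ m ≤ Real.log y := fun m hm =>
    (pow_le_pow_right₀ hb1' hm).trans hby
  have hlogb : (b : ℝ) ≤ Real.log y := by
    have := hbA 1 (by omega)
    simpa using this
  have hlog1 : (1 : ℝ) ≤ Real.log y := by linarith
  have hy0 : (0 : ℝ) < y := by
    rcases Nat.eq_zero_or_pos y with h | h
    · rw [h] at hlog1; simp at hlog1
      linarith
    · exact_mod_cast h
  have hlogy : Real.log y ≤ y := (Real.log_le_sub_one_of_pos hy0).trans (by linarith)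
  have hby1 : b ≤ y := by exact_mod_cast hlogb.trans hlogy
  obtain ⟨L, hL⟩ : ∃ L : ℕ, L = k * b := ⟨_, rfl⟩
  have hL2 : 2 ≤ L := by
    rw [hL]
    calc 2 ≤ 1 * b := by omega
      _ ≤ k * b := Nat.mul_le_mul_right _ hk
  have hLb : (L : ℝ) ≤ (b : ℝ) ^ 2 := by
    rw [hL]
    push_cast
    have : (k : ℝ) ≤ b := by exact_mod_cast (by omega : k ≤ b)
    nlinarith
  have hLy : L ≤ y := by
    have : (L : ℝ) ≤ y := hLb.trans ((hbA 2 (by omega)).trans hlogy)
    exact_mod_cast this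
  have hL0 : (0 : ℝ) < L := by exact_mod_cast (by omega : 0 < L)
  have hlogL : Real.log L ≤ (b : ℝ) ^ 2 := by
    have := Real.log_le_sub_one_of_pos hL0
    linarith
  have hlogL0 : 0 ≤ Real.log L := Real.log_nonneg (by exact_mod_cast (by omega : 1 ≤ L))
  have hratio : Real.log L / Real.log y ≤ 1 := by
    rw [div_le_one (by linarith)]
    exact Real.log_le_log hL0 (by exact_mod_cast hLy)
  have hratio0 : 0 ≤ Real.log L / Real.log y := div_nonneg hlogL0 (by linarith)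
  have hloglog : 0 ≤ Real.log (Real.log y) := Real.log_nonneg hlog1
  have hy1 : (1 : ℝ) ≤ y := by linarith
  have hyYm : ∀ m : ℕ, m ≤ A → (y : ℝ) ^ (m * Real.log (Real.log y)) ≤ Y := by
    intro m hm
    refine le_trans ?_ hyY
    apply Real.rpow_le_rpow_of_exponent_le hy1
    apply mul_le_mul_of_nonneg_right _ hloglog
    exact_mod_cast hm
  obtain ⟨Om, hOm⟩ : ∃ Om, Om = Ioc Z (Z + Y) := ⟨_, rfl⟩
  have hcard : (Om.card : ℝ) = Y := by
    rw [hOm, Nat.card_Ioc]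
    congr 1
    omega
  have hY0 : (0 : ℝ) < Y := by exact_mod_cast hY
  obtain ⟨hσ, hσ2, hσsq⟩ := sigma_facts b (by omega)
  obtain ⟨σ, hσdef⟩ : ∃ σ, σ = √(6 * b / Real.pi ^ 2) := ⟨_, rfl⟩
  rw [← hσdef] at hσ hσ2 hσsq
  obtain ⟨v, hv⟩ : ∃ v, v = wt w b σ := ⟨_, rfl⟩
  have hvb : ∀ h, |v h| ≤ T / σ := fun h => by rw [hv]; exact wt_bound w b σ T hσ hT0.le hw h
  -- the moments
  have hmom : ∀ j ≤ K, |∑ x ∈ Om, (∑ h ∈ Ioc 0 L, v h * mu y (x + h)) ^ j -
      ∑ x ∈ Om, (∑ U ∈ (Ioc 0 L).powerset, (∑ h ∈ Ioc 0 L, v h * sg U h * mu y (x + h) ^ 2) ^ j) / 2 ^ L| ≤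
      δ / 32 * Om.card := by
    intro j hj
    have hjm : j ∈ range (K + 1) := mem_range.2 (by omega)
    have hA2j : A2 j ≤ A := by
      have : A2 j ≤ A3 := by rw [hA3]; exact Finset.single_le_sum (fun _ _ => Nat.zero_le _) hjm
      omega
    have hC2j : |C2 j| ≤ C3 := by
      rw [hC3]
      exact Finset.single_le_sum (f := fun j => |C2 j|) (fun _ _ => abs_nonneg _) hjm
    obtain ⟨δj, hδj⟩ : ∃ δj : ℝ, δj = C3 * (Real.log L / Real.log y) ^ 2 * Y := ⟨_, rfl⟩
    have hδj0 : 0 ≤ δj := by rw [hδj]; positivity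
    have h1 := hSIGN Om L j (fun x h => mu y (x + h)) v (T / σ) δj (fun x h => mu_cube y (x + h)) hvb hδj0
      (by
        intro g hg hodd
        have h2 := hcorr j y L (by omega) hL2 hLy Z Y (hyYm (A2 j) hA2j) g (fun i =>
          (mem_Ioc.1 (hg i)).2)
        rw [abs_div, Nat.abs_cast, div_le_iff₀ hY0] at h2
        rw [hOm, hδj]
        refine h2.trans ?_
        apply mul_le_mul_of_nonneg_right _ hY0.le
        have h3 : (Real.log L / Real.log y) ^ (2 * (odd g).card) ≤ (Real.log L / Real.log y) ^ 2 := by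
          apply pow_le_pow_of_le_one hratio0 hratio
          have := hodd.card_pos
          omega
        calc C2 j * (Real.log L / Real.log y) ^ (2 * (odd g).card) ≤
            |C2 j| * (Real.log L / Real.log y) ^ (2 * (odd g).card) := by
              apply mul_le_mul_of_nonneg_right (le_abs_self _) (by positivity)
          _ ≤ C3 * (Real.log L / Real.log y) ^ 2 := by
              apply mul_le_mul hC2j h3 (by positivity) hC30)
    refine h1.trans ?_
    rw [hcard, hδj]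
    have h4 : T / σ * L ≤ 2 * T * k * b := by
      rw [hL]
      push_cast
      have : T / σ ≤ 2 * T := by
        rw [div_le_iff₀ hσ]
        nlinarith
      calc T / σ * (k * b) ≤ 2 * T * (k * b) := by gcongr
        _ = _ := by ring
    have h5 : (T / σ * L) ^ j ≤ (2 * T * k) ^ K * (b : ℝ) ^ K := by
      rw [← mul_pow]
      calc (T / σ * L) ^ j ≤ (2 * T * k * b) ^ j := pow_le_pow_left₀ (by positivity) h4 j
        _ ≤ (2 * T * k * b) ^ K := pow_le_pow_right₀ (by nlinarith) hj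
    have h6 : (Real.log L / Real.log y) ^ 2 ≤ (b : ℝ) ^ 4 / Real.log y := by
      rw [div_pow, div_le_div_iff₀ (by positivity) (by linarith)]
      have h7 : Real.log L ^ 2 ≤ ((b : ℝ) ^ 2) ^ 2 := pow_le_pow_left₀ hlogL0 hlogL 2
      have h8 : Real.log y ≤ Real.log y ^ 2 := by nlinarith
      calc Real.log L ^ 2 * Real.log y ≤ ((b : ℝ) ^ 2) ^ 2 * Real.log y ^ 2 := by
            apply mul_le_mul h7 h8 (by linarith) (by positivity)
        _ = (b : ℝ) ^ 4 * Real.log y ^ 2 := by ring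
    have h9 : D * (b : ℝ) ^ (K + 4) ≤ δ / 32 * Real.log y := by
      have h10 : D ≤ δ / 32 * b := by
        have : (N1 : ℝ) ≤ b := by exact_mod_cast (by omega : N1 ≤ b)
        rw [div_le_iff₀ (by positivity)] at hN1
        nlinarith
      calc D * (b : ℝ) ^ (K + 4) ≤ δ / 32 * b * (b : ℝ) ^ (K + 4) := by gcongr
        _ = δ / 32 * (b : ℝ) ^ (K + 5) := by ring
        _ ≤ δ / 32 * Real.log y := by
          apply mul_le_mul_of_nonneg_left (hbA (K + 5) (by omega)) (by positivity)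
    calc (T / σ * L) ^ j * (C3 * (Real.log L / Real.log y) ^ 2 * Y) ≤
        ((2 * T * k) ^ K * (b : ℝ) ^ K) * ((C3 + 1) * ((b : ℝ) ^ 4 / Real.log y) * Y) := by
          apply mul_le_mul h5 _ (by positivity) (by positivity)
          apply mul_le_mul_of_nonneg_right _ hY0.le
          apply mul_le_mul (by linarith) h6 (by positivity) (by linarith)
      _ = D * (b : ℝ) ^ (K + 4) / Real.log y * Y := by
          rw [hD]
          ring
      _ ≤ δ / 32 * Y := by
          apply mul_le_mul_of_nonneg_right _ hY0.le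
          rw [div_le_iff₀ (by linarith)]
          exact h9
  have hvsq : ∑ h ∈ Ioc 0 L, v h ^ 2 ≤ B := by
    have h1 : ∀ h ∈ Ioc 0 L, v h ^ 2 ≤ (T / σ) ^ 2 := by
      intro h _
      rw [← sq_abs]
      exact pow_le_pow_left₀ (abs_nonneg _) (hvb h) 2
    refine (Finset.sum_le_sum h1).trans ?_
    rw [Finset.sum_const, Nat.card_Ioc, nsmul_eq_mul, div_pow, hσsq, hB, hL]
    push_cast
    apply le_of_eq
    have : (b : ℝ) ≠ 0 := by linarith
    have hpi := Real.pi_ne_zero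
    simp only [Nat.sub_zero]
    push_cast
    field_simp
  have hcf := hCF Om L K (fun x h => mu y (x + h)) v B (δ / 32) hKeven (by positivity)
    (fun x h => mu_cube y (x + h)) hvsq hmom
  rw [hcard] at hcf
  -- the exponents
  have hS : ∀ x, ∑ h ∈ Ioc 0 L, v h * mu y (x + h) = ∑ i : Fin k, w i *
      ((∑ n ∈ Ioc (x + i * b) (x + i * b + b), mu y n) / √(6 * b / Real.pi ^ 2)) := by
    intro x
    rw [hL, sum_blocks, ← hσdef]
    apply Finset.sum_congr rfl
    intro i _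
    rw [← sum_shift x (i * b) b (fun n => mu y n), Finset.sum_div, Finset.mul_sum]
    apply Finset.sum_congr rfl
    intro u hu
    rw [hv, wt_block w b σ i u hu]
    ring
  have hP : ∀ x, ∏ h ∈ Ioc 0 L, Real.cos (v h * mu y (x + h) ^ 2) =
      ∏ i : Fin k, Real.cos (w i / √(6 * b / Real.pi ^ 2)) ^ qn y x (i * b) b := by
    intro x
    rw [hL, prod_blocks, ← hσdef]
    apply Finset.prod_congr rfl
    intro i _
    rw [← prod_cos]
    apply Finset.prod_congr rfl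
    intro u hu
    rw [hv, wt_block w b σ i u hu]
  -- the cosines
  obtain ⟨E, hE⟩ : ∃ E, E = Real.exp (-(∑ i, w i ^ 2) / 2) := ⟨_, rfl⟩
  have hE0 : 0 ≤ E := by rw [hE]; exact (Real.exp_pos _).le
  have hE1 : E ≤ 1 := by
    rw [hE, Real.exp_le_one_iff]
    have : 0 ≤ ∑ i, w i ^ 2 := Finset.sum_nonneg fun i _ => sq_nonneg _
    linarith
  have hcosx : ∀ x, |∏ i : Fin k, Real.cos (w i / √(6 * b / Real.pi ^ 2)) ^ qn y x (i * b) b - E| ≤
      δ / 8 + ∑ i : Fin k, 2 / η * |(∑ n ∈ Ioc (x + i * b) (x + i * b + b), mu y n ^ 2) / b -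
        6 / Real.pi ^ 2| := by
    intro x
    by_cases hx : ∀ i : Fin k, |(qn y x (i * b) b : ℝ) / b - 6 / Real.pi ^ 2| ≤ η
    · have h1 := hcos b (by omega) w hw (fun i => qn y x (i * b) b) hx
      rw [← hE] at h1
      refine h1.trans ?_
      have : 0 ≤ ∑ i : Fin k, 2 / η * |(∑ n ∈ Ioc (x + i * b) (x + i * b + b), mu y n ^ 2) / b -
        6 / Real.pi ^ 2| := Finset.sum_nonneg fun i _ => by positivity
      linarith
    · push Not at hx
      obtain ⟨i, hi⟩ := hx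
      rw [qn_eq] at hi
      have h1 : |∏ i : Fin k, Real.cos (w i / √(6 * b / Real.pi ^ 2)) ^ qn y x (i * b) b| ≤ 1 := by
        rw [Finset.abs_prod]
        apply Finset.prod_le_one (fun _ _ => abs_nonneg _)
        intro j _
        rw [abs_pow]
        exact pow_le_one₀ (abs_nonneg _) (Real.abs_cos_le_one _)
      have h2 : |∏ i : Fin k, Real.cos (w i / √(6 * b / Real.pi ^ 2)) ^ qn y x (i * b) b - E| ≤ 2 := by
        have := abs_sub (∏ i : Fin k, Real.cos (w i / √(6 * b / Real.pi ^ 2)) ^ qn y x (i * b) b) E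
        rw [abs_of_nonneg hE0] at this
        linarith
      have h3 : 2 ≤ 2 / η * |(∑ n ∈ Ioc (x + i * b) (x + i * b + b), mu y n ^ 2) / b -
          6 / Real.pi ^ 2| := by
        rw [div_mul_eq_mul_div, le_div_iff₀ hη]
        linarith
      have h4 := Finset.single_le_sum (f := fun i : Fin k => 2 / η *
        |(∑ n ∈ Ioc (x + i * b) (x + i * b + b), mu y n ^ 2) / b - 6 / Real.pi ^ 2|)
        (fun i _ => by positivity) (mem_univ i)
      have h5 : (0 : ℝ) ≤ δ / 8 := by positivity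
      linarith
  have hsumcos : |∑ x ∈ Om, ∏ h ∈ Ioc 0 L, Real.cos (v h * mu y (x + h) ^ 2) - Y * E| ≤ δ / 4 * Y := by
    have h1 : Y * E = ∑ _x ∈ Om, E := by rw [Finset.sum_const, nsmul_eq_mul, hcard]
    rw [h1, ← Finset.sum_sub_distrib]
    refine (Finset.abs_sum_le_sum_abs _ _).trans ?_
    have h2 : ∀ x ∈ Om, |∏ h ∈ Ioc 0 L, Real.cos (v h * mu y (x + h) ^ 2) - E| ≤
        δ / 8 + ∑ i : Fin k, 2 / η * |(∑ n ∈ Ioc (x + i * b) (x + i * b + b), mu y n ^ 2) / b -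
        6 / Real.pi ^ 2| := fun x _ => by rw [hP x]; exact hcosx x
    refine (Finset.sum_le_sum h2).trans ?_
    rw [Finset.sum_add_distrib, Finset.sum_const, nsmul_eq_mul, hcard, Finset.sum_comm]
    have h3 : ∀ i : Fin k, ∑ x ∈ Om, 2 / η * |(∑ n ∈ Ioc (x + i * b) (x + i * b + b), mu y n ^ 2) / b -
        6 / Real.pi ^ 2| ≤ 2 / η * (η * δ / (16 * k) * Y) := by
      intro i
      rw [← Finset.mul_sum]
      apply mul_le_mul_of_nonneg_left _ (by positivity)
      have hA1y : A1 * y ≤ Y := by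
        have h4 : ((A1 * y : ℕ) : ℝ) ≤ Y := by
          push_cast
          have h5 : (A1 : ℝ) ≤ y := by
            have : (A1 : ℝ) ≤ b := by exact_mod_cast (by omega : A1 ≤ b)
            linarith
          have h6 : (1 : ℝ) ≤ Real.log (Real.log y) := by
            rw [Real.le_log_iff_exp_le (by linarith)]
            have := Real.exp_one_lt_d9
            linarith
          calc (A1 : ℝ) * y ≤ y * y := by gcongr
            _ = (y : ℝ) ^ (2 : ℝ) := by
              rw [Real.rpow_two]; ring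
            _ ≤ (y : ℝ) ^ ((2 : ℕ) * Real.log (Real.log y)) := by
              apply Real.rpow_le_rpow_of_exponent_le hy1
              push_cast
              linarith
            _ ≤ Y := hyYm 2 (by omega)
        exact_mod_cast h4
      have h7 := hA1 y b (Z + i * b) Y (by omega) (by omega) hA1y
      refine le_trans (le_of_eq ?_) h7
      rw [hOm]
      have e1 := sum_shift ((i : ℕ) * b) Z Y (fun x => |(∑ n ∈ Ioc x (x + b), mu y n ^ 2) / b -
        6 / Real.pi ^ 2|)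
      rw [show (i : ℕ) * b + Z = Z + i * b by ring] at e1
      rw [← e1]
      apply Finset.sum_congr rfl
      intro x _
      rw [show x + (i : ℕ) * b = i * b + x by ring]
    refine (add_le_add le_rfl (Finset.sum_le_sum fun i _ => h3 i)).trans ?_
    rw [Finset.sum_const, card_univ, Fintype.card_fin, nsmul_eq_mul]
    apply le_of_eq
    have : (k : ℝ) ≠ 0 := by linarith
    field_simp
    ring
  -- conclusion
  rw [← hOm, ← hE]
  have hcardC : ((Om.card : ℕ) : ℂ) = (Y : ℂ) := by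
    have : Om.card = Y := by
      rw [hOm, Nat.card_Ioc]
      omega
    rw [this]
  rw [hcardC]
  have hYC : (Y : ℂ) ≠ 0 := by exact_mod_cast hY.ne'
  have e2 : ∑ x ∈ Om, Complex.exp (Complex.I * ((∑ i : Fin k, w i *
        ((∑ n ∈ Ioc (x + i * b) (x + i * b + b), mu y n) / √(6 * b / Real.pi ^ 2)) : ℝ) : ℂ)) =
      ∑ x ∈ Om, Complex.exp (Complex.I * ((∑ h ∈ Ioc 0 L, v h * mu y (x + h) : ℝ) : ℂ)) :=
    Finset.sum_congr rfl fun x _ => by rw [hS x]
  rw [e2]
  obtain ⟨P, hPdef⟩ : ∃ P, P = ∑ x ∈ Om, Complex.exp (Complex.I *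
    ((∑ h ∈ Ioc 0 L, v h * mu y (x + h) : ℝ) : ℂ)) := ⟨_, rfl⟩
  obtain ⟨R, hR⟩ : ∃ R, R = ∑ x ∈ Om, ∏ h ∈ Ioc 0 L, Real.cos (v h * mu y (x + h) ^ 2) := ⟨_, rfl⟩
  simp only [← hPdef, ← hR] at hcf
  rw [← hPdef]
  rw [← hR] at hsumcos
  have e3 : P / Y - (E : ℂ) = (P - Y * E) / Y := by field_simp
  rw [e3, norm_div, Complex.norm_natCast, div_le_iff₀ hY0]
  have h1 : ‖((R : ℝ) : ℂ) - Y * E‖ ≤ δ / 4 * Y := by
    have : ((R : ℝ) : ℂ) - Y * E = ((R - Y * E : ℝ) : ℂ) := by push_cast; ring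
    rw [this, Complex.norm_real]
    exact hsumcos
  calc ‖P - Y * E‖ = ‖(P - R) + (R - Y * E)‖ := by ring_nf
    _ ≤ ‖P - R‖ + ‖(R : ℂ) - Y * E‖ := norm_add_le _ _
    _ ≤ (4 * (δ / 32) + 2 * Real.exp (2 * B) / 2 ^ K) * Y + δ / 4 * Y := add_le_add hcf h1
    _ ≤ (4 * (δ / 32) + δ / 4) * Y + δ / 4 * Y := by gcongr
    _ ≤ δ * Y := by nlinarith

open Classical in
/-- **the joint Gaussian law** -/
theorem main (hCORR : S_CORR) (hSQ : S_SQ) (hSIGN : S_SIGN) (hCF : S_CF) (hCOS : S_COS)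
    (hLEVY : S_LEVY) (k : ℕ) (t : Fin k → ℝ) (ε : ℝ) (hε : 0 < ε) :
    ∃ A : ℕ, ∀ y b Z Y : ℕ, A ≤ b → (b : ℝ) ^ A ≤ Real.log y →
      (y : ℝ) ^ (A * Real.log (Real.log y)) ≤ Y →
      |(((Ioc Z (Z + Y)).filter (fun x => ∀ i : Fin k, ∑ n ∈ Ioc (x + i * b) (x + i * b + b), mu y n ≤
        t i * √(6 * b / Real.pi ^ 2))).card : ℝ) / Y -
        ∏ i, (ProbabilityTheory.gaussianReal 0 1).real (Set.Iic (t i))| ≤ ε := by
  have hYpos : ∀ (A y Y : ℕ), 1 ≤ A → ∀ b : ℕ, A ≤ b → (b : ℝ) ^ A ≤ Real.log y →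
      (y : ℝ) ^ (A * Real.log (Real.log y)) ≤ Y → 0 < Y := by
    intro A y Y hA b hb h1 h2
    have hy : 0 < (y : ℝ) := by
      rcases Nat.eq_zero_or_pos y with h | h
      · rw [h] at h1
        simp at h1
        have : (1 : ℝ) ≤ (b : ℝ) ^ A := one_le_pow₀ (by exact_mod_cast (by omega : 1 ≤ b))
        linarith
      · exact_mod_cast h
    have : 0 < (y : ℝ) ^ (A * Real.log (Real.log y)) := Real.rpow_pos_of_pos hy _
    exact_mod_cast this.trans_le h2
  rcases Nat.eq_zero_or_pos k with hk | hk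
  · subst hk
    refine ⟨1, fun y b Z Y hb h1 h2 => ?_⟩
    have hY := hYpos 1 y Y le_rfl b hb h1 h2
    have hY0 : (Y : ℝ) ≠ 0 := by exact_mod_cast hY.ne'
    have : (Ioc Z (Z + Y)).filter (fun x => ∀ i : Fin 0, ∑ n ∈ Ioc (x + i * b) (x + i * b + b), mu y n ≤
        t i * √(6 * b / Real.pi ^ 2)) = Ioc Z (Z + Y) := by
      apply Finset.filter_true_of_mem
      intro x _ i
      exact i.elim0
    rw [this, Nat.card_Ioc, Nat.add_sub_cancel_left, div_self hY0]
    simp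
    exact hε.le
  · obtain ⟨T, δ, hδ, hlevy⟩ := hLEVY k t ε hε
    obtain ⟨A, hA⟩ := char_close hCORR hSQ hSIGN hCF hCOS k hk (max T 1) δ (le_max_right _ _) hδ
    refine ⟨A + 1, fun y b Z Y hb h1 h2 => ?_⟩
    have hY := hYpos (A + 1) y Y (by omega) b hb h1 h2
    have hb1 : (1 : ℝ) ≤ b := by exact_mod_cast (by omega : 1 ≤ b)
    have h1' : (b : ℝ) ^ A ≤ Real.log y := (pow_le_pow_right₀ hb1 (Nat.le_succ A)).trans h1
    have hlog1 : 1 ≤ Real.log y := (one_le_pow₀ hb1).trans h1'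
    have hy1 : (1 : ℝ) ≤ y := by
      rcases Nat.eq_zero_or_pos y with h | h
      · rw [h] at hlog1; simp at hlog1
        linarith
      · exact_mod_cast h
    have h2' : (y : ℝ) ^ (A * Real.log (Real.log y)) ≤ Y := by
      refine le_trans ?_ h2
      apply Real.rpow_le_rpow_of_exponent_le hy1
      apply mul_le_mul_of_nonneg_right _ (Real.log_nonneg hlog1)
      push_cast
      linarith
    have hne : (Ioc Z (Z + Y)).Nonempty := ⟨Z + 1, by rw [mem_Ioc]; omega⟩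
    have hσ := (sigma_facts b (by omega)).1
    have h3 := hlevy (Ioc Z (Z + Y)) hne (fun x i =>
      (∑ n ∈ Ioc (x + i * b) (x + i * b + b), mu y n) / √(6 * b / Real.pi ^ 2)) (fun w hw =>
        hA y b Z Y (by omega) h1' h2' hY w (fun i => (hw i).trans (le_max_left _ _)))
    have hcard : ((Ioc Z (Z + Y)).card : ℝ) = Y := by
      rw [Nat.card_Ioc]
      congr 1
      omega
    rw [hcard] at h3
    have hfil : (Ioc Z (Z + Y)).filter (fun x => ∀ i : Fin k,
        ∑ n ∈ Ioc (x + i * b) (x + i * b + b), mu y n ≤ t i * √(6 * b / Real.pi ^ 2)) =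
        (Ioc Z (Z + Y)).filter (fun x => ∀ i : Fin k,
        (∑ n ∈ Ioc (x + i * b) (x + i * b + b), mu y n) / √(6 * b / Real.pi ^ 2) ≤ t i) := by
      apply Finset.filter_congr
      intro x _
      apply forall_congr'
      intro i
      rw [div_le_iff₀ hσ]
    rw [hfil]
    exact h3

end Pool.Agent.Y862.GM
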